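import Mathlib

/-!
# Abelian groups with an automorphism involving wreath products
-/

namespace Pool.Agent.Lib.MP_afab79_al.Wr

open Polynomial

/-- The wreath product of the cyclic groups of order `p` and `p ^ n`. -/
abbrev CW (p n : ℕ) : Type :=
  RegularWreathProduct (Multiplicative (ZMod p)) (Multiplicative (ZMod (p ^ n)))

section Lin

variable {p : ℕ} [hp : Fact p.Prime] {E : Type*} [AddCommGroup E] [Module (ZMod p) E]

theorem pow_sub_one (Γ : Module.End (ZMod p) E) (n : ℕ) :
    (Γ - 1) ^ p ^ n = Γ ^ p ^ n - 1 := by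
  have h : ((X : (ZMod p)[X]) - 1) ^ p ^ n = X ^ p ^ n - 1 := by
    rw [sub_pow_char_pow, one_pow]
  have h2 := congrArg (aeval Γ) h
  simpa using h2

/-- If a nontrivial combination of `λ, Γ λ, …, Γ ^ (m - 1) λ` vanishes and `(Γ - 1) ^ m λ = 0`,
then `(Γ - 1) ^ (m - 1) λ = 0`. -/
theorem nil_of_comb (Γ : Module.End (ZMod p) E) (l : E) (m : ℕ) (Q : (ZMod p)[X]) (hQ : Q ≠ 0)
    (hd : Q.natDegree < m) (h1 : aeval Γ Q l = 0) (h2 : ((Γ - 1) ^ m) l = 0) :
    ((Γ - 1) ^ (m - 1)) l = 0 := by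
  obtain ⟨Q1, hQ1, hnd⟩ := Polynomial.exists_eq_pow_rootMultiplicity_mul_and_not_dvd Q hQ 1
  set j := Q.rootMultiplicity 1 with hj
  have hjd : j ≤ Q.natDegree := by
    calc j = ((X - C (1 : ZMod p)) ^ j).natDegree := by
          rw [natDegree_pow, natDegree_X_sub_C, mul_one]
      _ ≤ Q.natDegree := natDegree_le_of_dvd (Dvd.intro _ hQ1.symm) hQ
  have hcop : IsCoprime Q1 ((X - C (1 : ZMod p)) ^ m) := by
    apply IsCoprime.pow_right
    rw [isCoprime_comm]
    exact (Irreducible.coprime_iff_not_dvd (irreducible_X_sub_C 1)).2 hnd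
  obtain ⟨u, w, huw⟩ := hcop
  have e1 : aeval Γ (X - C (1 : ZMod p)) = Γ - 1 := by simp
  have e2 : ((Γ - 1) ^ j) l = 0 := by
    have e3 : (X - C (1 : ZMod p)) ^ j = u * Q + (w * (X - C (1 : ZMod p)) ^ j) *
        (X - C (1 : ZMod p)) ^ m := by
      calc (X - C (1 : ZMod p)) ^ j = (u * Q1 + w * (X - C (1 : ZMod p)) ^ m) *
            (X - C (1 : ZMod p)) ^ j := by rw [huw, one_mul]
        _ = u * ((X - C (1 : ZMod p)) ^ j * Q1) + (w * (X - C (1 : ZMod p)) ^ j) *
              (X - C (1 : ZMod p)) ^ m := by ring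
        _ = _ := by rw [← hQ1]
    have e4 := congrArg (fun q => aeval Γ q l) e3
    simp only [map_pow, e1, map_add, map_mul, LinearMap.add_apply, Module.End.mul_apply] at e4
    rw [h1, h2] at e4
    simp only [map_zero, add_zero] at e4
    exact e4
  have e5 : m - 1 = (m - 1 - j) + j := by omega
  rw [e5, pow_add, Module.End.mul_apply, e2, map_zero]

end Lin

section Sep

variable (p : ℕ) [hp : Fact p.Prime] {V : Type*} [CommGroup V]

theorem exists_hom_ne_module {D : Type*} [AddCommGroup D] [Module (ZMod p) D] (d : D)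
    (hd : d ≠ 0) : ∃ l : D →+ ZMod p, l d ≠ 0 := by
  obtain ⟨f, hf⟩ := Module.Projective.exists_dual_ne_zero (ZMod p) hd
  exact ⟨f.toAddMonoidHom, hf⟩

theorem exists_hom_ne {D : Type*} [AddCommGroup D] (hD : ∀ x : D, p • x = 0) (d : D)
    (hd : d ≠ 0) : ∃ l : D →+ ZMod p, l d ≠ 0 :=
  @exists_hom_ne_module p hp D _ (AddCommGroup.zmodModule hD) d hd

/-- An element which is not a `p`-th power is separated from `0` by a homomorphism to the group of
order `p`. -/
theorem exists_char (z : V) (hz : ∀ x : V, z ≠ x ^ p) :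
    ∃ l : Additive V →+ ZMod p, l (Additive.ofMul z) ≠ 0 := by
  let R : AddSubgroup (Additive V) := (nsmulAddMonoidHom (α := Additive V) p).range
  have hR : ∀ x : Additive V ⧸ R, p • x = 0 := by
    intro x
    induction x using QuotientAddGroup.induction_on with
    | H x =>
      rw [← QuotientAddGroup.mk_nsmul, QuotientAddGroup.eq_zero_iff]
      exact ⟨x, rfl⟩
  have hne : (QuotientAddGroup.mk (Additive.ofMul z) : Additive V ⧸ R) ≠ 0 := by
    intro h
    rw [QuotientAddGroup.eq_zero_iff] at h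
    obtain ⟨x, hx⟩ := h
    exact hz x.toMul (by
      have := congrArg Additive.toMul hx
      simpa using this.symm)
  obtain ⟨l, hl⟩ := exists_hom_ne p hR _ hne
  exact ⟨l.comp (QuotientAddGroup.mk' R), hl⟩

end Sep


section Inv

variable {p : ℕ} [hp : Fact p.Prime] {V G : Type*} [CommGroup V] [Group G]

theorem conj_zpow {W : Type*} [Group W] (f : V →* W) (t : W) (φ : MulAut V)
    (h : ∀ v, f (φ v) = t * f v * t⁻¹) (k : ℤ) (v : V) :
    f ((φ ^ k) v) = t ^ k * f v * (t ^ k)⁻¹ := by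
  induction k using Int.induction_on generalizing v with
  | zero => simp
  | succ k ih =>
    rw [zpow_add_one, MulAut.mul_apply, ih, h, zpow_add_one]
    group
  | pred k ih =>
    have h2 : f (φ⁻¹ v) = t⁻¹ * f v * t := by
      have := h (φ⁻¹ v)
      rw [MulAut.apply_inv_self] at this
      rw [this]; group
    rw [zpow_sub_one, MulAut.mul_apply, ih, h2, zpow_sub_one]
    group

/-- Composition with an automorphism, on the homomorphisms to the group of order `p`. -/
def Gam (p : ℕ) (φ : MulAut V) : Module.End (ZMod p) (Additive V →+ ZMod p) where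
  toFun l := l.comp (MonoidHom.toAdditive φ.toMonoidHom)
  map_add' _ _ := rfl
  map_smul' _ _ := rfl

theorem Gam_apply (φ : MulAut V) (l : Additive V →+ ZMod p) (v : V) :
    (Gam p φ l) (Additive.ofMul v) = l (Additive.ofMul (φ v)) := rfl

theorem Gam_pow (φ : MulAut V) (k : ℕ) (l : Additive V →+ ZMod p) (v : V) :
    ((Gam p φ ^ k) l) (Additive.ofMul v) = l (Additive.ofMul ((φ ^ k) v)) := by
  induction k generalizing v l with
  | zero => simp
  | succ k ih =>
    rw [pow_succ, Module.End.mul_apply, ih, Gam_apply, pow_succ', MulAut.mul_apply]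

/-- A combination of the translates of `l` as a polynomial in `Γ`. -/
theorem comb_poly {m : ℕ} [NeZero m] (Γ : Module.End (ZMod p) (Additive V →+ ZMod p))
    (l : Additive V →+ ZMod p) (a : ZMod m → ZMod p) :
    aeval Γ (∑ x : ZMod m, C (a x) * X ^ (x.val)) l = ∑ x : ZMod m, a x • (Γ ^ x.val) l := by
  rw [map_sum, LinearMap.sum_apply]
  apply Finset.sum_congr rfl
  intro x _
  rw [map_mul, map_pow, aeval_C, aeval_X, Module.End.mul_apply]
  rfl

theorem poly_ne {m : ℕ} [NeZero m] (a : ZMod m → ZMod p) (x₀ : ZMod m) (h : a x₀ ≠ 0) :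
    (∑ x : ZMod m, C (a x) * X ^ (x.val) : (ZMod p)[X]) ≠ 0 := by
  intro h0
  apply h
  have h1 := congrArg (fun q => Polynomial.coeff q x₀.val) h0
  simp only [Polynomial.finsetSum_coeff, coeff_C_mul, coeff_X_pow, coeff_zero] at h1
  rw [Finset.sum_eq_single x₀] at h1
  · simpa using h1
  · intro b _ hb
    rw [if_neg, mul_zero]
    intro h2
    exact hb (ZMod.val_injective m h2.symm)
  · simp

theorem poly_deg {m : ℕ} [NeZero m] (a : ZMod m → ZMod p) :
    (∑ x : ZMod m, C (a x) * X ^ (x.val) : (ZMod p)[X]).natDegree < m := by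
  have hm : 0 < m := Nat.pos_of_ne_zero (NeZero.ne m)
  have h : (∑ x : ZMod m, C (a x) * X ^ (x.val) : (ZMod p)[X]).natDegree ≤ m - 1 := by
    apply Polynomial.natDegree_sum_le_of_forall_le
    intro x _
    refine (natDegree_C_mul_X_pow_le _ _).trans ?_
    have := ZMod.val_lt x
    omega
  omega

/-- The functional `Γ ^ x l` for `x` modulo `m`. -/
def Lx (φ : MulAut V) (l : Additive V →+ ZMod p) {m : ℕ} (x : ZMod m) : Additive V →+ ZMod p :=
  (Gam p φ ^ x.val) l

theorem pow_mod_apply {E : Type*} [AddCommGroup E] [Module (ZMod p) E]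
    (Γ : Module.End (ZMod p) E) (l : E) (m : ℕ) (h : (Γ ^ m) l = l) (k : ℕ) :
    (Γ ^ k) l = (Γ ^ (k % m)) l := by
  conv_lhs => rw [← Nat.mod_add_div k m]
  rw [pow_add, pow_mul, Module.End.mul_apply]
  congr 1
  generalize k / m = q
  induction q with
  | zero => simp
  | succ q ih => rw [pow_succ, Module.End.mul_apply, h, ih]

theorem Lx_succ (φ : MulAut V) (l : Additive V →+ ZMod p) {m : ℕ} [NeZero m]
    (h : (Gam p φ ^ m) l = l) (x : ZMod m) : Gam p φ (Lx φ l x) = Lx φ l (x + 1) := by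
  rw [Lx, Lx, ← Module.End.mul_apply, ← pow_succ', pow_mod_apply _ l m h, ZMod.val_add,
    pow_mod_apply _ l m h ((x.val + (1 : ZMod m).val) % m)]
  congr 2
  rw [Nat.mod_mod, Nat.add_mod]
  conv_rhs => rw [Nat.add_mod]
  congr 2
  rcases Nat.lt_or_ge 1 m with h1 | h1
  · have : Fact (1 < m) := ⟨h1⟩
    rw [ZMod.val_one]
  · have : m = 1 := by have := NeZero.ne m; omega
    subst this
    simp [Nat.mod_one]

end Inv

section Main

variable {p : ℕ} [hp : Fact p.Prime] {V G : Type*} [CommGroup V] [Group G]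

open Multiplicative in
/-- The base part of the map to the wreath product. -/
def baseHom (φ : MulAut V) (l : Additive V →+ ZMod p) (n : ℕ) : V →* CW p n where
  toFun v := ⟨fun x => ofAdd (Lx φ l (-(toAdd x)) (Additive.ofMul v)), 1⟩
  map_one' := by
    ext x
    · simp
    · simp
  map_mul' v w := by
    ext x
    · simp
    · simp

open Multiplicative in
/-- The top part. -/
def topElt (p n : ℕ) : CW p n := ⟨1, ofAdd 1⟩

open Multiplicative in
theorem topElt_pow (n : ℕ) (k : ℕ) : (topElt p n) ^ k = ⟨1, ofAdd (k : ZMod (p ^ n))⟩ := by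
  induction k with
  | zero => simp; rfl
  | succ k ih =>
    rw [pow_succ, ih, topElt]
    ext x
    · simp
    · simp

open Multiplicative in
theorem topElt_zpow (n : ℕ) (k : ℤ) : (topElt p n) ^ k = ⟨1, ofAdd (k : ZMod (p ^ n))⟩ := by
  obtain ⟨k, rfl | rfl⟩ := k.eq_nat_or_neg
  · rw [zpow_natCast, topElt_pow, Int.cast_natCast]
  · rw [zpow_neg, zpow_natCast, topElt_pow]
    apply inv_eq_of_mul_eq_one_right
    ext x
    · simp
    · simp

open Multiplicative in
theorem baseHom_conj (φ : MulAut V) (l : Additive V →+ ZMod p) (n : ℕ)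
    (h : (Gam p φ ^ p ^ n) l = l) (v : V) :
    baseHom φ l n (φ v) = topElt p n * baseHom φ l n v * (topElt p n)⁻¹ := by
  rw [eq_mul_inv_iff_mul_eq]
  ext x
  · simp only [baseHom, topElt, MonoidHom.coe_mk, OneHom.coe_mk, RegularWreathProduct.mul_left,
      Pi.mul_apply, Pi.one_apply, mul_one, one_mul]
    have h1 := Lx_succ φ l h (-(toAdd x))
    have h2 : Lx φ l (-(toAdd x)) (Additive.ofMul (φ v)) =
      Lx φ l (-(toAdd x) + 1) (Additive.ofMul v) := by
      rw [← h1]; rfl
    rw [h2]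
    congr 3
    simp
  · simp [baseHom, topElt]


/-- The functional chosen for the construction. -/
theorem exists_functional (φ : MulAut V) {N : ℕ} (hN : φ ^ p ^ N = 1) (n : ℕ) (v₀ : V)
    (hv₀ : ∀ x, (φ ^ p ^ n) v₀ * v₀⁻¹ ≠ x ^ p) :
    ∃ l l' : Additive V →+ ZMod p, l = (Gam p φ - 1) l' ∧ (Gam p φ ^ p ^ n) l = l ∧
      ((Gam p φ - 1) ^ (p ^ n - 1)) l ≠ 0 := by
  obtain ⟨l₀, hl₀⟩ := exists_char p _ hv₀
  have h1 : ((Gam p φ - 1) ^ p ^ n) l₀ ≠ 0 := by
    intro h
    apply hl₀
    rw [pow_sub_one] at h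
    have h2 := congrArg (fun l : Additive V →+ ZMod p => l (Additive.ofMul v₀)) h
    simp only [LinearMap.sub_apply, Module.End.one_apply, AddMonoidHom.sub_apply,
      AddMonoidHom.zero_apply] at h2
    rw [Gam_pow] at h2
    rw [ofMul_mul, ofMul_inv, map_add, map_neg, ← sub_eq_add_neg]
    exact h2
  have h2 : ∃ j : ℕ, ((Gam p φ - 1) ^ j) l₀ = 0 := by
    refine ⟨p ^ N, ?_⟩
    rw [pow_sub_one]
    apply AddMonoidHom.ext
    intro v
    change (Gam p φ ^ p ^ N) l₀ v - l₀ v = 0
    have := Gam_pow φ (p ^ N) l₀ v.toMul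
    rw [hN] at this
    rw [sub_eq_zero]
    exact this
  classical
  let j := Nat.find h2
  have hj : ((Gam p φ - 1) ^ j) l₀ = 0 := Nat.find_spec h2
  have hj' : p ^ n < j := by
    by_contra hle
    push Not at hle
    apply h1
    have : p ^ n = (p ^ n - j) + j := by omega
    rw [this, pow_add, Module.End.mul_apply, hj, map_zero]
  have hj1 : ((Gam p φ - 1) ^ (j - 1)) l₀ ≠ 0 := Nat.find_min h2 (by omega)
  refine ⟨((Gam p φ - 1) ^ (j - p ^ n)) l₀, ((Gam p φ - 1) ^ (j - p ^ n - 1)) l₀, ?_, ?_, ?_⟩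
  · rw [← Module.End.mul_apply, ← pow_succ']
    congr 2
    omega
  · have h3 : ((Gam p φ - 1) ^ p ^ n) (((Gam p φ - 1) ^ (j - p ^ n)) l₀) = 0 := by
      rw [← Module.End.mul_apply, ← pow_add]
      have : p ^ n + (j - p ^ n) = j := by omega
      rw [this, hj]
    rw [pow_sub_one, LinearMap.sub_apply, Module.End.one_apply, sub_eq_zero] at h3
    exact h3
  · rw [← Module.End.mul_apply, ← pow_add]
    have h4 : 1 ≤ p ^ n := Nat.one_le_pow _ _ hp.out.pos
    have : p ^ n - 1 + (j - p ^ n) = j - 1 := by omega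
    rw [this]
    exact hj1

/-- The translates of the functional separate the functions on `ZMod (p ^ n)`. -/
theorem base_surj (φ : MulAut V) (n : ℕ) (l : Additive V →+ ZMod p)
    (h1 : (Gam p φ ^ p ^ n) l = l) (h2 : ((Gam p φ - 1) ^ (p ^ n - 1)) l ≠ 0)
    (g : ZMod (p ^ n) → ZMod p) : ∃ v : V, ∀ x, Lx φ l (-x) (Additive.ofMul v) = g x := by
  let Φ : Additive V →+ (ZMod (p ^ n) → ZMod p) :=
    { toFun := fun v x => Lx φ l (-x) v
      map_zero' := by ext x; simp
      map_add' := fun v w => by ext x; simp }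
  let R : Submodule (ZMod p) (ZMod (p ^ n) → ZMod p) := AddSubgroup.toZModSubmodule p Φ.range
  have hR : R = ⊤ := by
    by_contra hne
    obtain ⟨ψ, hψ, hker⟩ := Submodule.exists_le_ker_of_lt_top R (lt_top_iff_ne_top.2 hne)
    have hsum : ∀ g : ZMod (p ^ n) → ZMod p, ψ g = ∑ x, g x * ψ (Pi.single x 1) := by
      intro g
      conv_lhs => rw [← Finset.univ_sum_single g]
      rw [map_sum]
      apply Finset.sum_congr rfl
      intro x _
      have : (Pi.single x (g x) : ZMod (p ^ n) → ZMod p) = g x • Pi.single x 1 := by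
        rw [← Pi.single_smul, smul_eq_mul, mul_one]
      rw [this, map_smul, smul_eq_mul]
    have hx₀ : ∃ x₀, ψ (Pi.single x₀ 1) ≠ 0 := by
      by_contra hall
      push Not at hall
      apply hψ
      apply LinearMap.ext
      intro g
      rw [hsum]
      simp [hall]
    obtain ⟨x₀, hx₀⟩ := hx₀
    let a : ZMod (p ^ n) → ZMod p := fun x => ψ (Pi.single (-x) 1)
    have ha : a (-x₀) ≠ 0 := by simpa [a] using hx₀
    have h3 : ∑ x : ZMod (p ^ n), a x • (Gam p φ ^ x.val) l = 0 := by
      apply AddMonoidHom.ext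
      intro v
      have h4 : ψ (Φ v) = 0 := by
        apply hker
        exact ⟨v, rfl⟩
      rw [hsum] at h4
      rw [AddMonoidHom.finsetSum_apply]
      rw [← Equiv.sum_comp (Equiv.neg (ZMod (p ^ n)))] at h4
      refine Eq.trans ?_ h4
      apply Finset.sum_congr rfl
      intro x _
      simp only [Φ, a, Lx, Equiv.neg_apply, neg_neg, AddMonoidHom.coe_mk, ZeroHom.coe_mk]
      change ψ (Pi.single (-x) 1) • ((Gam p φ ^ x.val) l) v = _
      rw [smul_eq_mul, mul_comm]
    have h5 : ((Gam p φ - 1) ^ p ^ n) l = 0 := by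
      rw [pow_sub_one, LinearMap.sub_apply, Module.End.one_apply, h1, sub_self]
    apply h2
    apply nil_of_comb (Gam p φ) l (p ^ n) (∑ x : ZMod (p ^ n), C (a x) * X ^ (x.val))
      (poly_ne a _ ha) (poly_deg a) _ h5
    rw [comb_poly, h3]
  have hg : g ∈ R := by rw [hR]; trivial
  obtain ⟨v, hv⟩ := hg
  exact ⟨v.toMul, fun x => congrFun hv x⟩

open Multiplicative in
/-- **Wreath products.** If `(φ ^ p ^ n) v₀ * v₀⁻¹` is not a `p`-th power in the abelian group
`V`, then the group generated by `V` and `c` maps onto the wreath product `C_p ≀ C_{p ^ n}`. -/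
theorem exists_wreath (ι : V →* G) (hι : Function.Injective ι) (c : G) (φ : MulAut V)
    (hφ : ∀ v, ι (φ v) = c * ι v * c⁻¹) {N : ℕ} (hN : c ^ p ^ N = 1) (n : ℕ) (v₀ : V)
    (hv₀ : ∀ x, (φ ^ p ^ n) v₀ * v₀⁻¹ ≠ x ^ p) :
    ∃ (J : Subgroup G) (f : J →* CW p n), (∀ j ∈ J, ∃ (v : V) (k : ℤ), j = ι v * c ^ k) ∧
      Function.Surjective f := by
  have hφN : φ ^ p ^ N = 1 := by
    ext v
    apply hι
    have := conj_zpow ι c φ hφ (p ^ N : ℕ) v
    rw [zpow_natCast, zpow_natCast, hN] at this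
    simpa using this
  obtain ⟨l, l', hl', hl1, hl2⟩ := exists_functional φ hφN n v₀ hv₀
  let t : CW p n := topElt p n
  let f₁ : V →* CW p n := baseHom φ l n
  have hf₁ : ∀ v, f₁ (φ v) = t * f₁ v * t⁻¹ := baseHom_conj φ l n hl1
  let act : Multiplicative ℤ →* MulAut V := zpowersHom (MulAut V) φ
  let π : V ⋊[act] Multiplicative ℤ →* G := SemidirectProduct.lift ι (zpowersHom G c) (by
    intro k
    ext v
    exact conj_zpow ι c φ hφ (toAdd k) v)
  let F : V ⋊[act] Multiplicative ℤ →* CW p n := SemidirectProduct.lift f₁ (zpowersHom _ t) (by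
    intro k
    apply MonoidHom.ext
    intro v
    exact conj_zpow f₁ t φ hf₁ (toAdd k) v)
  have hπ : ∀ x, π x = ι x.left * c ^ (toAdd x.right) := fun x => rfl
  have hF : ∀ x, F x = f₁ x.left * t ^ (toAdd x.right) := fun x => rfl
  have hker : π.ker ≤ F.ker := by
    intro x hx
    rw [MonoidHom.mem_ker, hπ] at hx
    rw [MonoidHom.mem_ker, hF]
    obtain ⟨v, k⟩ := x
    simp only at hx ⊢
    generalize toAdd k = k at hx ⊢
    have hv : ι v = (c ^ k)⁻¹ := eq_inv_of_mul_eq_one_left hx
    have hk1 : φ ^ k = 1 := by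
      ext w
      apply hι
      rw [conj_zpow ι c φ hφ k w]
      have : c ^ k = (ι v)⁻¹ := by rw [hv, inv_inv]
      rw [this, ← map_inv, ← map_mul, ← map_inv, ← map_mul, inv_inv]
      simp
    have hdvd : ((p ^ n : ℕ) : ℤ) ∣ k := by
      have h1 : ((orderOf φ : ℕ) : ℤ) ∣ k := orderOf_dvd_iff_zpow_eq_one.2 hk1
      have h2 : orderOf φ ∣ p ^ N := orderOf_dvd_of_pow_eq_one hφN
      obtain ⟨j, _, hj⟩ := (Nat.dvd_prime_pow hp.out).1 h2
      have h3 : n < j := by
        by_contra hle
        push Not at hle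
        apply hv₀ 1
        have : φ ^ p ^ n = 1 := by
          apply orderOf_dvd_iff_pow_eq_one.1
          rw [hj]
          exact pow_dvd_pow p hle
        rw [this]
        simp
      rw [hj] at h1
      exact (Int.natCast_dvd_natCast.2 (pow_dvd_pow p h3.le)).trans h1
    have ht : t ^ k = 1 := by
      have := topElt_zpow (p := p) n k
      rw [show t = topElt p n from rfl, this]
      have h0 : ((k : ℤ) : ZMod (p ^ n)) = 0 := by
        rw [ZMod.intCast_zmod_eq_zero_iff_dvd]
        exact_mod_cast hdvd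
      rw [h0]
      rfl
    have hfix : φ v = v := by
      apply hι
      rw [hφ, hv]
      group
    have hfixn : ∀ m : ℕ, (φ ^ m) v = v := by
      intro m
      induction m with
      | zero => simp
      | succ m ih => rw [pow_succ, MulAut.mul_apply, hfix, ih]
    have hlv : l (Additive.ofMul v) = 0 := by
      rw [hl', LinearMap.sub_apply, AddMonoidHom.sub_apply, Gam_apply, hfix,
        Module.End.one_apply, sub_self]
    have hf : f₁ v = 1 := by
      ext x
      · change (ofAdd (Lx φ l (-(toAdd x)) (Additive.ofMul v)) : Multiplicative (ZMod p)) = 1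
        rw [Lx, Gam_pow, hfixn, hlv]
        rfl
      · rfl
    rw [hf, ht, one_mul]
  let f : π.range →* CW p n :=
    (MonoidHom.liftOfSurjective π.rangeRestrict π.rangeRestrict_surjective)
      ⟨F, by rw [MonoidHom.ker_rangeRestrict]; exact hker⟩
  have hf : ∀ x, f (π.rangeRestrict x) = F x := fun x =>
    MonoidHom.liftOfRightInverse_comp_apply _ _ _ _ x
  refine ⟨π.range, f, ?_, ?_⟩
  · rintro j ⟨x, rfl⟩
    exact ⟨x.left, toAdd x.right, hπ x⟩
  · intro w
    obtain ⟨v, hv⟩ := base_surj φ n l hl1 hl2 (fun x => toAdd (w.left (ofAdd x)))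
    refine ⟨π.rangeRestrict ⟨v, ofAdd ((toAdd w.right).val : ℤ)⟩, ?_⟩
    rw [hf, hF]
    simp only [toAdd_ofAdd, zpow_natCast]
    rw [show t = topElt p n from rfl, topElt_pow]
    ext x
    · change (f₁ v * _).left x = _
      simp only [RegularWreathProduct.mul_left, Pi.mul_apply, Pi.one_apply, mul_one]
      change (ofAdd (Lx φ l (-(toAdd x)) (Additive.ofMul v)) : Multiplicative (ZMod p)) = _
      rw [hv]
      rfl
    · change (1 * ofAdd _ : Multiplicative (ZMod (p ^ n))) = _
      rw [one_mul, ZMod.natCast_zmod_val]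
      rfl

end Main

end Pool.Agent.Lib.MP_afab79_al.Wr
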