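import Mathlib
import Pool.Agent.Lib.MP_afab79_al.Wr.Wreath

/-!
# Finite p-groups not involving a wreath product
-/

namespace Pool.Agent.Lib.MP_afab79_al.Wr

section Pow

variable {V : Type*} [CommGroup V]

theorem pow_apply_prod (φ : MulAut V) (v : V) (i : ℕ) :
    (φ ^ i) v = v * ∏ j ∈ Finset.range i, (φ ^ j) (φ v * v⁻¹) := by
  induction i with
  | zero => simp
  | succ i ih =>
    rw [Finset.prod_range_succ, ← mul_assoc, ← ih, pow_succ, MulAut.mul_apply, ← map_mul]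
    congr 1
    rw [mul_comm (φ v), ← mul_assoc, mul_inv_cancel, one_mul]

theorem pow_trivial (φ : MulAut V) (p k : ℕ) (hk : 1 ≤ k)
    (h : ∀ v, ∃ w, φ v = v * w ^ p ^ k) (v : V) : ∃ w, (φ ^ p) v = v * w ^ p ^ (k + 1) := by
  have h1 : ∀ (i : ℕ) (v : V), ∃ w, (φ ^ i) v = v * w ^ p ^ k := by
    intro i
    induction i with
    | zero => exact fun v => ⟨1, by simp⟩
    | succ i ih =>
      intro v
      obtain ⟨w, hw⟩ := h v
      obtain ⟨w', hw'⟩ := ih (v * w ^ p ^ k)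
      refine ⟨w * w', ?_⟩
      rw [pow_succ, MulAut.mul_apply, hw, hw', mul_pow, mul_assoc]
  choose W hW using h1
  obtain ⟨w, hw⟩ := h v
  refine ⟨w * (∏ j ∈ Finset.range p, W j w) ^ p ^ (k - 1), ?_⟩
  rw [pow_apply_prod φ v p]
  congr 1
  have h2 : φ v * v⁻¹ = w ^ p ^ k := by rw [hw]; simp
  rw [h2]
  have h3 : ∀ j, (φ ^ j) (w ^ p ^ k) = w ^ p ^ k * (W j w) ^ (p ^ k * p ^ k) := by
    intro j
    rw [map_pow, hW, mul_pow, ← pow_mul]
  simp only [h3]
  rw [Finset.prod_mul_distrib, Finset.prod_const, Finset.card_range, Finset.prod_pow, mul_pow,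
    ← pow_mul, ← pow_mul]
  congr 2
  rw [← pow_add, ← pow_add]
  congr 1
  omega

theorem pow_trivial_iter (φ : MulAut V) (p : ℕ) (h : ∀ v, ∃ w, φ v = v * w ^ p) (s : ℕ) (v : V) :
    ∃ w, (φ ^ p ^ s) v = v * w ^ p ^ (s + 1) := by
  induction s generalizing v with
  | zero =>
    obtain ⟨w, hw⟩ := h v
    exact ⟨w, by simpa using hw⟩
  | succ s ih =>
    have := pow_trivial (φ ^ p ^ s) p (s + 1) (by omega) ih v
    rw [← pow_mul, ← pow_succ] at this
    exact this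

end Pow

section PGroup

variable {Λ : Type*} [Group Λ] [Finite Λ] {p : ℕ} [hp : Fact p.Prime]

theorem center_meet (hΛ : IsPGroup p Λ) (N : Subgroup Λ) [N.Normal] (hN : N ≠ ⊥) :
    ∃ z ∈ N, z ≠ 1 ∧ ∀ g, g * z = z * g := by
  have hΛ' : IsPGroup p (ConjAct Λ) := hΛ
  have h1 : (1 : N) ∈ MulAction.fixedPoints (ConjAct Λ) N := fun g => smul_one g
  have hcard : p ∣ Nat.card N := by
    have : Nontrivial N := (Subgroup.nontrivial_iff_ne_bot N).2 hN
    obtain ⟨n, hn, hc⟩ := (hΛ.to_subgroup N).nontrivial_iff_card.1 this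
    rw [hc]
    exact dvd_pow_self p hn.ne'
  obtain ⟨z, hz, hne⟩ := hΛ'.exists_fixed_point_of_prime_dvd_card_of_fixed_point N hcard h1
  refine ⟨z, z.2, fun h => hne (Subtype.ext h.symm), fun g => ?_⟩
  have h2 := congrArg Subtype.val (hz (ConjAct.toConjAct g))
  have h3 : g * z * g⁻¹ = z := h2
  calc g * z = (g * z * g⁻¹) * g := by group
    _ = z * g := by rw [h3]

/-- A maximal abelian normal subgroup `A` of `Λ` inside `P` contains its centraliser in `P`. -/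
theorem exists_self_centralizing (hΛ : IsPGroup p Λ) (P : Subgroup Λ) [P.Normal] :
    ∃ A : Subgroup Λ, A.Normal ∧ A ≤ P ∧ (∀ a ∈ A, ∀ b ∈ A, a * b = b * a) ∧
      ∀ c ∈ P, (∀ a ∈ A, c * a = a * c) → c ∈ A := by
  let S : Set (Subgroup Λ) := {A | A.Normal ∧ A ≤ P ∧ ∀ a ∈ A, ∀ b ∈ A, a * b = b * a}
  have hS : S.Nonempty := ⟨⊥, inferInstance, bot_le, fun a ha b hb => by
    rw [Subgroup.mem_bot] at ha hb; rw [ha, hb]⟩
  obtain ⟨A, hA, hmax⟩ := (Set.toFinite S).exists_maximal hS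
  obtain ⟨hAn, hAP, hAc⟩ := hA
  refine ⟨A, hAn, hAP, hAc, ?_⟩
  intro c hc hca
  by_contra hcA
  let C : Subgroup Λ := P ⊓ Subgroup.centralizer (A : Set Λ)
  have hCn : C.Normal := by
    have : (Subgroup.centralizer (A : Set Λ)).Normal := Subgroup.normal_centralizer
    exact Subgroup.normal_inf_normal _ _
  let q := QuotientGroup.mk' A
  let C' : Subgroup (Λ ⧸ A) := C.map q
  have hC'n : C'.Normal := hCn.map q (QuotientGroup.mk'_surjective A)
  have hcC : c ∈ C := ⟨hc, Subgroup.mem_centralizer_iff.2 (fun a ha => (hca a ha).symm)⟩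
  have hC' : C' ≠ ⊥ := by
    intro h
    have : q c ∈ C' := ⟨c, hcC, rfl⟩
    rw [h, Subgroup.mem_bot] at this
    exact hcA ((QuotientGroup.eq_one_iff c).1 this)
  obtain ⟨z', hz'C, hz'1, hz'c⟩ := center_meet (hΛ.to_quotient A) C' hC'
  obtain ⟨z, hzC, rfl⟩ := hz'C
  have hzA : z ∉ A := fun h => hz'1 ((QuotientGroup.eq_one_iff z).2 h)
  have hzg : ∀ g, g * z * g⁻¹ * z⁻¹ ∈ A := by
    intro g
    rw [← QuotientGroup.eq_one_iff]
    have := hz'c (q g)
    change (q g) * (q z) * (q g)⁻¹ * (q z)⁻¹ = 1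
    rw [this]; group
  let A' : Subgroup Λ := A ⊔ Subgroup.zpowers z
  have hzcA : ∀ a ∈ A, a * z = z * a := fun a ha => Subgroup.mem_centralizer_iff.1 hzC.2 a ha
  have hmem : ∀ x ∈ A', ∃ a ∈ A, ∃ k : ℤ, x = a * z ^ k := by
    intro x hx
    obtain ⟨a, ha, b, hb, rfl⟩ := Subgroup.mem_sup_of_normal_left.1 hx
    obtain ⟨k, rfl⟩ := hb
    exact ⟨a, ha, k, rfl⟩
  have hzk : ∀ a ∈ A, ∀ k : ℤ, a * z ^ k = z ^ k * a := by
    intro a ha k
    exact (Commute.zpow_right (hzcA a ha) k)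
  have hA'S : A' ∈ S := by
    refine ⟨⟨?_⟩, ?_, ?_⟩
    · intro x hx g
      obtain ⟨a, ha, k, rfl⟩ := hmem x hx
      have h1 : g * (a * z ^ k) * g⁻¹ = (g * a * g⁻¹) * (g * z * g⁻¹) ^ k := by
        rw [_root_.conj_zpow]
        group
      have h2 : g * z * g⁻¹ ∈ A' := by
        have : g * z * g⁻¹ = (g * z * g⁻¹ * z⁻¹) * z := by group
        rw [this]
        exact A'.mul_mem (Subgroup.mem_sup_left (hzg g))
          (Subgroup.mem_sup_right (Subgroup.mem_zpowers z))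
      rw [h1]
      exact A'.mul_mem (Subgroup.mem_sup_left (hAn.conj_mem a ha g)) (A'.zpow_mem h2 k)
    · exact sup_le hAP ((Subgroup.zpowers_le).2 hzC.1)
    · intro x hx y hy
      obtain ⟨a, ha, k, rfl⟩ := hmem x hx
      obtain ⟨b, hb, m, rfl⟩ := hmem y hy
      calc a * z ^ k * (b * z ^ m) = a * (z ^ k * b) * z ^ m := by group
        _ = a * (b * z ^ k) * z ^ m := by rw [hzk b hb]
        _ = (a * b) * z ^ (k + m) := by rw [zpow_add]; group
        _ = (b * a) * z ^ (m + k) := by rw [hAc a ha b hb, add_comm]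
        _ = b * (a * z ^ m) * z ^ k := by rw [zpow_add]; group
        _ = b * (z ^ m * a) * z ^ k := by rw [hzk a ha]
        _ = b * z ^ m * (a * z ^ k) := by group
  have hle : A ≤ A' := le_sup_left
  exact hzA (hmax hA'S hle (Subgroup.mem_sup_right (Subgroup.mem_zpowers z)))

/-- **Finite `p`-groups without wreath products.** Let `P` be a normal subgroup of the finite
`p`-group `Λ` such that all abelian normal subgroups of `Λ` inside `P` have exponent dividing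
`p ^ s` and no subgroup of `P` maps onto `C_p ≀ C_{p ^ n}`. Then `P` has exponent dividing
`p ^ (n + s + s)`. -/
theorem exponent_of_no_wreath (hΛ : IsPGroup p Λ) (P : Subgroup Λ) [P.Normal] (s n : ℕ)
    (hab : ∀ A : Subgroup Λ, A.Normal → A ≤ P → (∀ a ∈ A, ∀ b ∈ A, a * b = b * a) →
      ∀ a ∈ A, a ^ p ^ s = 1)
    (hw : ¬ ∃ (J : Subgroup Λ) (f : J →* CW p n), J ≤ P ∧ Function.Surjective f) :
    ∀ c ∈ P, c ^ p ^ (n + s + s) = 1 := by
  obtain ⟨A, hAn, hAP, hAc, hAcent⟩ := exists_self_centralizing hΛ P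
  intro c hc
  let _ : CommGroup A := { (inferInstance : Group A) with
    mul_comm := fun a b => Subtype.ext (hAc a a.2 b b.2) }
  let φ : MulAut A := MulAut.conjNormal c
  have hφ : ∀ v : A, ((φ v : A) : Λ) = c * v * c⁻¹ := fun v => rfl
  obtain ⟨N, hN⟩ := hΛ c
  have h1 : ∀ v : A, ∃ x : A, (φ ^ p ^ n) v = v * x ^ p := by
    by_contra hcon
    push Not at hcon
    obtain ⟨v₀, hv₀⟩ := hcon
    apply hw
    obtain ⟨J, f, hJ, hf⟩ := exists_wreath A.subtype A.subtype_injective c φ hφ hN n v₀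
      (fun x hx => hv₀ x (by rw [← hx, mul_comm, mul_assoc, inv_mul_cancel, mul_one]))
    refine ⟨J, f, ?_, hf⟩
    intro j hj
    obtain ⟨v, k, rfl⟩ := hJ j hj
    exact P.mul_mem (hAP v.2) (P.zpow_mem hc k)
  have h2 : ∀ v : A, ((φ ^ p ^ n) ^ p ^ s) v = v := by
    intro v
    obtain ⟨w, hw⟩ := pow_trivial_iter (φ ^ p ^ n) p h1 s v
    rw [hw]
    have h3 : (w : Λ) ^ p ^ s = 1 := hab A hAn hAP hAc w w.2
    have h4 : w ^ p ^ (s + 1) = 1 := by
      rw [pow_succ, pow_mul]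
      have : w ^ p ^ s = 1 := Subtype.ext h3
      rw [this, one_pow]
    rw [h4, mul_one]
  have h5 : c ^ p ^ (n + s) ∈ A := by
    apply hAcent _ (P.pow_mem hc _)
    intro a ha
    have h6 := conj_zpow A.subtype c φ hφ (p ^ (n + s) : ℕ) ⟨a, ha⟩
    rw [zpow_natCast, zpow_natCast, pow_add p n s, pow_mul, h2] at h6
    have h7 : a = c ^ (p ^ n * p ^ s) * a * (c ^ (p ^ n * p ^ s))⁻¹ := h6
    rw [pow_add]
    calc c ^ (p ^ n * p ^ s) * a = (c ^ (p ^ n * p ^ s) * a * (c ^ (p ^ n * p ^ s))⁻¹) *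
          c ^ (p ^ n * p ^ s) := by group
      _ = _ := by rw [← h7]
  have h8 := hab A hAn hAP hAc _ h5
  rw [← pow_mul, ← pow_add] at h8
  exact h8

end PGroup

end Pool.Agent.Lib.MP_afab79_al.Wr
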