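import Mathlib

/-!
# Crossed homomorphisms on a finite group with prescribed values on two elements
-/

namespace Pool.Agent.Lib.MP_afab79_al.Wr

variable {H V : Type*} [Group H] [Finite H] [CommGroup V]

/-- Averaging a crossed homomorphism. -/
theorem cross_avg (act : H → V →* V) (c : H → V) (hc : ∀ g h, c (g * h) = c g * act g (c h)) :
    ∃ T : V, ∀ g, c g ^ Nat.card H = T * (act g T)⁻¹ := by
  classical
  have := Fintype.ofFinite H
  refine ⟨∏ x : H, c x, fun g => ?_⟩
  have h1 : ∏ x : H, c x = ∏ x : H, c (g * x) :=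
    (Fintype.prod_bijective (fun x => g * x) (Group.mulLeft_bijective g) _ _ (fun _ => rfl)).symm
  have h2 : ∏ x : H, c (g * x) = c g ^ Nat.card H * act g (∏ x : H, c x) := by
    simp only [hc]
    rw [Finset.prod_mul_distrib, Finset.prod_const, map_prod, Nat.card_eq_fintype_card]
    rfl
  rw [eq_mul_inv_iff_mul_eq, ← h2, ← h1]

/-- If every function on `{y₁, y₂}` extends to a crossed homomorphism of the finite group `H` into
the abelian group `V`, then `V` has exponent dividing `|H| ^ 3`. -/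
theorem kill (act : H → V →* V) (h0 : ∀ v, act 1 v = v)
    (hmul : ∀ g h v, act (g * h) v = act g (act h v)) (y₁ y₂ : H)
    (h1 : ∀ u : V, ∃ c : H → V, (∀ g h, c (g * h) = c g * act g (c h)) ∧ c y₁ = u ∧ c y₂ = 1)
    (h2 : ∀ u : V, ∃ c : H → V, (∀ g h, c (g * h) = c g * act g (c h)) ∧ c y₁ = 1 ∧ c y₂ = u)
    (u : V) : u ^ (Nat.card H ^ 3) = 1 := by
  obtain ⟨c, hc, hc1, hc2⟩ := h1 u
  obtain ⟨T, hT⟩ := cross_avg act c hc
  have e1 : u ^ Nat.card H = T * (act y₁ T)⁻¹ := by rw [← hc1]; exact hT y₁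
  have e2 : act y₂ T = T := by
    have := hT y₂
    rw [hc2, one_pow] at this
    exact (mul_inv_eq_one.1 this.symm).symm
  obtain ⟨c', hc', _, hc'2⟩ := h2 T
  obtain ⟨T', hT'⟩ := cross_avg act c' hc'
  have e3 : T ^ Nat.card H = T' * (act y₂ T')⁻¹ := by
    have := hT' y₂
    rw [hc'2] at this
    exact this
  have e4 : ∀ i : ℕ, act (y₂ ^ i) T = T := by
    intro i
    induction i with
    | zero => rw [pow_zero, h0]
    | succ i ih => rw [pow_succ, hmul, e2, ih]
  have e5 : T ^ (Nat.card H * Nat.card H) = 1 := by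
    have h3 : ∏ i ∈ Finset.range (Nat.card H), act (y₂ ^ i) (T ^ Nat.card H) =
        T ^ (Nat.card H * Nat.card H) := by
      simp only [map_pow, e4]
      rw [Finset.prod_const, Finset.card_range, pow_mul]
    have h4 : ∀ i ∈ Finset.range (Nat.card H), act (y₂ ^ i) (T ^ Nat.card H) =
        act (y₂ ^ i) T' / act (y₂ ^ (i + 1)) T' := by
      intro i _
      rw [e3, map_mul, map_inv, pow_succ, hmul, div_eq_mul_inv]
    rw [← h3, Finset.prod_congr rfl h4, Finset.prod_range_div', pow_zero, h0, pow_card_eq_one',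
      h0, div_self']
  calc u ^ (Nat.card H ^ 3) = (u ^ Nat.card H) ^ (Nat.card H * Nat.card H) := by
        rw [← pow_mul]; congr 1; ring
    _ = (T * (act y₁ T)⁻¹) ^ (Nat.card H * Nat.card H) := by rw [e1]
    _ = 1 := by rw [mul_pow, inv_pow, ← map_pow, e5, map_one, inv_one, mul_one]

end Pool.Agent.Lib.MP_afab79_al.Wr
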