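import Mathlib

/-!
# Rigid pairs in locally finite profinite groups
-/

namespace Pool.Agent.Lib.MP_afab79_al.Wr

section Ev

variable {G : Type*} [Group G]

/-- Evaluation of words in two letters. -/
def ev (y : G × G) : FreeGroup Bool →* G := FreeGroup.lift (fun b => if b then y.1 else y.2)

@[simp] theorem ev_true (y : G × G) : ev y (FreeGroup.of true) = y.1 := by simp [ev]

@[simp] theorem ev_false (y : G × G) : ev y (FreeGroup.of false) = y.2 := by simp [ev]

theorem ev_range (y : G × G) : (ev y).range = Subgroup.closure {y.1, y.2} := by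
  rw [ev, FreeGroup.range_lift_eq_closure]
  congr 1
  ext x
  simp only [Set.mem_range, Bool.exists_bool, Bool.false_eq_true, if_false, if_true,
    Set.mem_insert_iff, Set.mem_singleton_iff]
  constructor
  · rintro (h | h)
    · exact Or.inr h.symm
    · exact Or.inl h.symm
  · rintro (h | h)
    · exact Or.inr h.symm
    · exact Or.inl h.symm

end Ev

section Top

variable {G : Type*} [Group G] [TopologicalSpace G] [IsTopologicalGroup G]

theorem ev_continuous (w : FreeGroup Bool) : Continuous fun y : G × G => ev y w := by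
  induction w using FreeGroup.induction_on with
  | C1 => simp only [map_one]; exact continuous_const
  | of b =>
    cases b
    · simp only [ev_false]; exact continuous_snd
    · simp only [ev_true]; exact continuous_fst
  | inv_of b ih => simp only [map_inv]; exact ih.inv
  | mul x y hx hy => simp only [map_mul]; exact hx.mul hy

/-- The pairs among whose words there are at most `n` values. -/
def Zs (G : Type*) [Group G] (n : ℕ) : Set (G × G) :=
  {y | ∀ w : Fin (n + 1) → FreeGroup Bool, ∃ i j, i ≠ j ∧ ev y (w i) = ev y (w j)}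

theorem Zs_closed [T2Space G] (n : ℕ) : IsClosed (Zs G n) := by
  have : Zs G n = ⋂ w : Fin (n + 1) → FreeGroup Bool, ⋃ i : Fin (n + 1), ⋃ j : Fin (n + 1),
      {y : G × G | i ≠ j ∧ ev y (w i) = ev y (w j)} := by
    ext y
    simp [Zs]
  rw [this]
  refine isClosed_iInter fun w => isClosed_iUnion_of_finite fun i =>
    isClosed_iUnion_of_finite fun j => ?_
  by_cases h : i = j
  · simp [h]
  · simp only [ne_eq, h, not_false_eq_true, true_and]
    exact isClosed_eq (ev_continuous _) (ev_continuous _)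

end Top

section Card

variable {G : Type*} [Group G]

theorem mem_Zs (y : G × G) (hf : (Set.range (ev y)).Finite) :
    y ∈ Zs G (Set.range (ev y)).ncard := by
  intro w
  by_contra hcon
  push Not at hcon
  have hinj : Function.Injective fun i => ev y (w i) := by
    intro i j hij
    by_contra hne
    exact hcon i j hne hij
  have h1 : (Set.range fun i => ev y (w i)).ncard ≤ (Set.range (ev y)).ncard :=
    Set.ncard_le_ncard (by rintro _ ⟨i, rfl⟩; exact ⟨_, rfl⟩) hf
  rw [← Set.image_univ, Set.ncard_image_of_injective _ hinj, Set.ncard_univ, Nat.card_eq_fintype_card,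
    Fintype.card_fin] at h1
  omega

theorem card_le_of_mem_Zs (y : G × G) (hf : (Set.range (ev y)).Finite) {n : ℕ} (h : y ∈ Zs G n) :
    (Set.range (ev y)).ncard ≤ n := by
  by_contra hlt
  push Not at hlt
  obtain ⟨t, ht, htc⟩ := Set.exists_subset_card_eq (s := Set.range (ev y)) (n := n + 1) hlt
  have htf : t.Finite := hf.subset ht
  have hcard : Nat.card t = n + 1 := htc
  have : Finite t := htf
  let e : Fin (n + 1) ≃ t := (Finite.equivFinOfCardEq hcard).symm
  have h1 : ∀ i : Fin (n + 1), ∃ w, ev y w = (e i : G) := fun i => ht (e i).2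
  choose w hw using h1
  obtain ⟨i, j, hne, hij⟩ := h w
  rw [hw, hw] at hij
  exact hne (e.injective (Subtype.ext hij))

end Card

section Rigid

variable {G : Type*} [Group G] [TopologicalSpace G] [IsTopologicalGroup G] [CompactSpace G]
  [T2Space G] [TotallyDisconnectedSpace G]

/-- **Rigid pairs.** Let `O` be a nonempty open set of pairs which generate finite subgroups. Then
there are `(y₁, y₂) ∈ O` and an open normal subgroup `M` which meets `H = ⟨y₁, y₂⟩` trivially, such
that `(u y₁, v y₂) ∈ O` and all relations between `y₁` and `y₂` hold for `u y₁` and `v y₂`, for all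
`u, v ∈ M`. -/
theorem exists_rigid_in (O : Set (G × G)) (hOo : IsOpen O) (hOn : O.Nonempty)
    (hfin : ∀ y ∈ O, (Set.range (ev y)).Finite) :
    ∃ y ∈ O, ∃ M : OpenNormalSubgroup G, (ev y).range ⊓ M.toSubgroup = ⊥ ∧
      (∀ u ∈ M.toSubgroup, ∀ v ∈ M.toSubgroup, (u * y.1, v * y.2) ∈ O) ∧
      ∀ u ∈ M.toSubgroup, ∀ v ∈ M.toSubgroup, ∀ w, ev y w = 1 → ev (u * y.1, v * y.2) w = 1 := by
  obtain ⟨n, hn⟩ : ∃ n, (interior (Zs G n) ∩ O).Nonempty := by
    have hd := dense_iUnion_interior_of_closed (f := fun n => Zs G n ∪ Oᶜ)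
      (fun n => (Zs_closed n).union hOo.isClosed_compl) (by
        rw [Set.eq_univ_iff_forall]
        intro y
        by_cases hy : y ∈ O
        · exact Set.mem_iUnion.2 ⟨_, Or.inl (mem_Zs y (hfin y hy))⟩
        · exact Set.mem_iUnion.2 ⟨0, Or.inr hy⟩)
    obtain ⟨y, hyO, hy⟩ := hd.inter_open_nonempty O hOo hOn
    obtain ⟨n, hyn⟩ := Set.mem_iUnion.1 hy
    refine ⟨n, y, ?_, hyO⟩
    have h1 : interior (Zs G n ∪ Oᶜ) ∩ O ⊆ Zs G n := by
      rintro z ⟨hz, hzO⟩
      rcases interior_subset hz with h | h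
      · exact h
      · exact absurd hzO h
    exact interior_maximal h1 (isOpen_interior.inter hOo) ⟨hyn, hyO⟩
  let S : Set ℕ := {k | ∃ y ∈ interior (Zs G n) ∩ O, (Set.range (ev y)).ncard = k}
  have hS : S.Nonempty := by
    obtain ⟨y, hy⟩ := hn
    exact ⟨_, y, hy, rfl⟩
  have hSb : BddAbove S := by
    refine ⟨n, ?_⟩
    rintro k ⟨y, hy, rfl⟩
    exact card_le_of_mem_Zs y (hfin y hy.2) (interior_subset hy.1)
  obtain ⟨y, hy, hyc⟩ := Nat.sSup_mem hS hSb
  have hmax : ∀ y' ∈ interior (Zs G n) ∩ O,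
      (Set.range (ev y')).ncard ≤ (Set.range (ev y)).ncard := by
    intro y' hy'
    rw [hyc]
    exact le_csSup hSb ⟨y', hy', rfl⟩
  have hW : IsOpen {q : G × G | (q.1 * y.1, q.2 * y.2) ∈ interior (Zs G n) ∩ O} := by
    apply (isOpen_interior.inter hOo).preimage
    exact (continuous_fst.mul continuous_const).prodMk (continuous_snd.mul continuous_const)
  obtain ⟨Ua, Ub, hUa, hUb, h1a, h1b, hsub⟩ := isOpen_prod_iff.1 hW 1 1 (by simpa using hy)
  have hO : IsOpen (Ua ∩ Ub ∩ (Set.range (ev y) \ {1})ᶜ) := by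
    refine (hUa.inter hUb).inter ?_
    exact ((hfin y hy.2).subset Set.sdiff_subset).isClosed.isOpen_compl
  obtain ⟨M, hM⟩ := ProfiniteGrp.exist_openNormalSubgroup_sub_open_nhds_of_one hO
    ⟨⟨h1a, h1b⟩, by simp⟩
  have hHM : ∀ g ∈ Set.range (ev y), g ∈ M.toSubgroup → g = 1 := by
    intro g hg hgM
    by_contra hne
    exact (hM hgM).2 ⟨hg, hne⟩
  have hy'' : ∀ u ∈ M.toSubgroup, ∀ v ∈ M.toSubgroup,
      (u * y.1, v * y.2) ∈ interior (Zs G n) ∩ O := by
    intro u hu v hv
    have h : (u, v) ∈ Ua ×ˢ Ub := ⟨(hM hu).1.1, (hM hv).1.2⟩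
    exact hsub h
  refine ⟨y, hy.2, M, ?_, fun u hu v hv => (hy'' u hu v hv).2, ?_⟩
  · rw [eq_bot_iff]
    rintro g ⟨⟨w, rfl⟩, hg⟩
    exact Subgroup.mem_bot.2 (hHM _ ⟨w, rfl⟩ hg)
  · intro u hu v hv w hw
    let q := QuotientGroup.mk' M.toSubgroup
    have hy' := hy'' u hu v hv
    have hq : q.comp (ev (u * y.1, v * y.2)) = q.comp (ev y) := by
      have hqu : q u = 1 := (QuotientGroup.eq_one_iff u).2 hu
      have hqv : q v = 1 := (QuotientGroup.eq_one_iff v).2 hv
      ext b
      cases b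
      · simp only [MonoidHom.comp_apply, ev_false, map_mul, hqv, one_mul]
      · simp only [MonoidHom.comp_apply, ev_true, map_mul, hqu, one_mul]
    have hq' : ∀ w, q (ev (u * y.1, v * y.2) w) = q (ev y w) := fun w =>
      DFunLike.congr_fun hq w
    have himg : q '' Set.range (ev (u * y.1, v * y.2)) = q '' Set.range (ev y) := by
      ext z
      constructor
      · rintro ⟨_, ⟨w, rfl⟩, rfl⟩
        exact ⟨_, ⟨w, rfl⟩, (hq' w).symm⟩
      · rintro ⟨_, ⟨w, rfl⟩, rfl⟩
        exact ⟨_, ⟨w, rfl⟩, hq' w⟩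
    have hinj : Set.InjOn q (Set.range (ev y)) := by
      rintro _ ⟨a, rfl⟩ _ ⟨b, rfl⟩ hab
      have h2 : ev y a * (ev y b)⁻¹ ∈ M.toSubgroup := by
        rw [← QuotientGroup.eq_one_iff]
        change q (ev y a) * (q (ev y b))⁻¹ = 1
        rw [hab, mul_inv_cancel]
      have h3 := hHM (ev y a * (ev y b)⁻¹) ⟨a * b⁻¹, by simp⟩ h2
      exact mul_inv_eq_one.1 h3
    have hinj' : Set.InjOn q (Set.range (ev (u * y.1, v * y.2))) := by
      rw [← Set.ncard_image_iff (hfin _ hy'.2)]
      apply le_antisymm (Set.ncard_image_le (hfin _ hy'.2))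
      rw [himg, hinj.ncard_image]
      exact hmax _ hy'
    apply hinj' ⟨w, rfl⟩ ⟨1, map_one _⟩
    rw [hq', hw]

/-- Rigid pairs exist if all subgroups generated by two elements are finite. -/
theorem exists_rigid (hlf : ∀ x y : G, Finite (Subgroup.closure {x, y})) :
    ∃ (y : G × G) (M : OpenNormalSubgroup G), (ev y).range ⊓ M.toSubgroup = ⊥ ∧
      ∀ u ∈ M.toSubgroup, ∀ v ∈ M.toSubgroup, ∀ w, ev y w = 1 → ev (u * y.1, v * y.2) w = 1 := by
  obtain ⟨y, _, M, h1, _, h2⟩ := exists_rigid_in (Set.univ : Set (G × G)) isOpen_univ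
    Set.univ_nonempty (fun y _ => by
      have h1 : Finite ((ev y).range) := by rw [ev_range]; exact hlf _ _
      exact Set.toFinite ((ev y).range : Set G))
  exact ⟨y, M, h1, h2⟩

end Rigid

end Pool.Agent.Lib.MP_afab79_al.Wr
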