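import Mathlib
import Pool.Agent.Lib.MP_afab79_al.Wr.Cross
import Pool.Agent.Lib.MP_afab79_al.Wr.Rigid

/-!
# Abelian sections of a rigid pair have bounded exponent
-/

namespace Pool.Agent.Lib.MP_afab79_al.Wr

variable {G : Type*} [Group G]

/-- `H` normalises `B`. -/
def Nml (H B : Subgroup G) : Prop := ∀ x ∈ H, ∀ b ∈ B, x * b * x⁻¹ ∈ B

theorem ev_mul_inv_mem {y : G × G} {B : Subgroup G} (hB : Nml (ev y).range B) {u v : G}
    (hu : u ∈ B) (hv : v ∈ B) (w : FreeGroup Bool) :
    ev (u * y.1, v * y.2) w * (ev y w)⁻¹ ∈ B := by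
  induction w using FreeGroup.induction_on with
  | C1 => simp [B.one_mem]
  | of b =>
    cases b
    · simpa using hv
    · simpa using hu
  | inv_of b ih =>
    have h1 := hB (ev y (FreeGroup.of b))⁻¹ ⟨(FreeGroup.of b)⁻¹, map_inv _ _⟩ _ (B.inv_mem ih)
    have h2 : ev (u * y.1, v * y.2) (FreeGroup.of b)⁻¹ * (ev y (FreeGroup.of b)⁻¹)⁻¹ =
        (ev y (FreeGroup.of b))⁻¹ * (ev (u * y.1, v * y.2) (FreeGroup.of b) *
          (ev y (FreeGroup.of b))⁻¹)⁻¹ * (ev y (FreeGroup.of b))⁻¹⁻¹ := by
      rw [map_inv, map_inv]; group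
    rw [h2]
    exact h1
  | mul a b ha hb =>
    have h1 := hB (ev y a) ⟨a, rfl⟩ _ hb
    have h2 : ev (u * y.1, v * y.2) (a * b) * (ev y (a * b))⁻¹ =
        (ev (u * y.1, v * y.2) a * (ev y a)⁻¹) *
          (ev y a * (ev (u * y.1, v * y.2) b * (ev y b)⁻¹) * (ev y a)⁻¹) := by
      rw [map_mul, map_mul]; group
    rw [h2]
    exact B.mul_mem ha h1

theorem fst_mem (y : G × G) : y.1 ∈ (ev y).range := ⟨FreeGroup.of true, ev_true y⟩

theorem snd_mem (y : G × G) : y.2 ∈ (ev y).range := ⟨FreeGroup.of false, ev_false y⟩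

/-- **Abelian sections.** Let the relations of `y₁, y₂` hold for `u y₁, v y₂` for all `u, v` in
`B`, let `H = ⟨y₁, y₂⟩` be finite and normalise `A ≤ B`, and let `B / A` be abelian. Then
`b ^ (|H| ^ 3) ∈ A` for all `b ∈ B`. -/
theorem abelian_section (y : G × G) [Finite (ev y).range] (A B : Subgroup G)
    (hA : Nml (ev y).range A) (hB : Nml (ev y).range B)
    (hr : ∀ u ∈ B, ∀ v ∈ B, ∀ w, ev y w = 1 → ev (u * y.1, v * y.2) w = 1)
    (hab : ∀ a ∈ B, ∀ b ∈ B, a * b * a⁻¹ * b⁻¹ ∈ A) (b : G) (hb : b ∈ B) :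
    b ^ (Nat.card (ev y).range ^ 3) ∈ A := by
  let A' : Subgroup B := A.subgroupOf B
  have hA'n : A'.Normal := by
    refine ⟨fun a ha g => ?_⟩
    rw [Subgroup.mem_subgroupOf] at ha ⊢
    have h1 : ((g * a * g⁻¹ : B) : G) = (g * a * (g : G)⁻¹ * (a : G)⁻¹) * a := by
      push_cast; group
    rw [h1]
    exact A.mul_mem (hab g g.2 a a.2) ha
  let V := B ⧸ A'
  have hcomm : ∀ a b : V, a * b = b * a := by
    intro a b
    induction a using QuotientGroup.induction_on with
    | H a =>
      induction b using QuotientGroup.induction_on with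
      | H b =>
        rw [← QuotientGroup.mk_mul, ← QuotientGroup.mk_mul, QuotientGroup.eq]
        rw [Subgroup.mem_subgroupOf]
        have h1 : (((a * b)⁻¹ * (b * a) : B) : G) =
            (b : G)⁻¹ * (a : G)⁻¹ * (b : G)⁻¹⁻¹ * (a : G)⁻¹⁻¹ := by
          push_cast; group
        rw [h1]
        exact hab _ (B.inv_mem b.2) _ (B.inv_mem a.2)
  let _ : CommGroup V := { (inferInstance : Group V) with mul_comm := hcomm }
  let cj : (ev y).range → B →* B := fun x =>
    { toFun := fun b => ⟨x * b * (x : G)⁻¹, hB x x.2 b b.2⟩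
      map_one' := Subtype.ext (by simp)
      map_mul' := fun a b => Subtype.ext (by push_cast; group) }
  have hcj : ∀ x, A' ≤ A'.comap (cj x) := by
    intro x a ha
    rw [Subgroup.mem_comap, Subgroup.mem_subgroupOf]
    exact hA x x.2 a ha
  let act : (ev y).range → V →* V := fun x => QuotientGroup.map A' A' (cj x) (hcj x)
  have hact : ∀ x (b : B), act x (QuotientGroup.mk b) = QuotientGroup.mk (cj x b) := fun _ _ => rfl
  have h0 : ∀ v, act 1 v = v := by
    intro v
    induction v using QuotientGroup.induction_on with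
    | H v =>
      rw [hact]
      congr 1
      exact Subtype.ext (by simp [cj])
  have hmul : ∀ g h v, act (g * h) v = act g (act h v) := by
    intro g h v
    induction v using QuotientGroup.induction_on with
    | H v =>
      rw [hact, hact, hact]
      congr 1
      exact Subtype.ext (by simp only [cj, MonoidHom.coe_mk, OneHom.coe_mk]; push_cast; group)
  -- crossed homomorphisms with prescribed values
  have hcross : ∀ u v : B, ∃ c : (ev y).range → V, (∀ g h, c (g * h) = c g * act g (c h)) ∧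
      c ⟨y.1, fst_mem y⟩ = QuotientGroup.mk u ∧
      c ⟨y.2, snd_mem y⟩ = QuotientGroup.mk v := by
    intro u v
    let d : FreeGroup Bool → B := fun w =>
      ⟨ev (u * y.1, v * y.2) w * (ev y w)⁻¹, ev_mul_inv_mem hB u.2 v.2 w⟩
    have hd : ∀ w w', ev y w = ev y w' → d w = d w' := by
      intro w w' h
      have h1 := hr u u.2 v v.2 (w * w'⁻¹) (by rw [map_mul, map_inv, h, mul_inv_cancel])
      rw [map_mul, map_inv] at h1
      apply Subtype.ext
      change ev (u * y.1, v * y.2) w * (ev y w)⁻¹ = ev (u * y.1, v * y.2) w' * (ev y w')⁻¹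
      rw [h, mul_inv_eq_one.1 h1]
    have hsec : ∀ x : (ev y).range, ∃ w, ev y w = x := fun x => x.2
    choose σ hσ using hsec
    refine ⟨fun x => QuotientGroup.mk (d (σ x)), ?_, ?_, ?_⟩
    · intro g h
      have h1 : d (σ (g * h)) = d (σ g * σ h) := by
        apply hd
        rw [hσ, map_mul, hσ, hσ]
        rfl
      simp only
      rw [h1, hact, ← QuotientGroup.mk_mul]
      congr 1
      apply Subtype.ext
      simp only [d, cj, MonoidHom.coe_mk, OneHom.coe_mk, Subgroup.coe_mul, map_mul, hσ]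
      group
    · change (QuotientGroup.mk (d (σ ⟨y.1, fst_mem y⟩)) : V) = QuotientGroup.mk u
      congr 1
      have h1 : d (σ ⟨y.1, fst_mem y⟩) = d (FreeGroup.of true) := by
        apply hd
        rw [hσ, ev_true]
      rw [h1]
      apply Subtype.ext
      simp [d]
    · change (QuotientGroup.mk (d (σ ⟨y.2, snd_mem y⟩)) : V) = QuotientGroup.mk v
      congr 1
      have h1 : d (σ ⟨y.2, snd_mem y⟩) = d (FreeGroup.of false) := by
        apply hd
        rw [hσ, ev_false]
      rw [h1]
      apply Subtype.ext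
      simp [d]
  have hk := kill act h0 hmul ⟨y.1, fst_mem y⟩
    ⟨y.2, snd_mem y⟩ (by
      intro v
      induction v using QuotientGroup.induction_on with
      | H v =>
        obtain ⟨c, h1, h2, h3⟩ := hcross v 1
        exact ⟨c, h1, h2, by rw [h3]; rfl⟩) (by
      intro v
      induction v using QuotientGroup.induction_on with
      | H v =>
        obtain ⟨c, h1, h2, h3⟩ := hcross 1 v
        exact ⟨c, h1, by rw [h2]; rfl, h3⟩) (QuotientGroup.mk ⟨b, hb⟩)
  have h1 : (QuotientGroup.mk ((⟨b, hb⟩ : B) ^ (Nat.card (ev y).range ^ 3)) : V) = 1 := hk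
  rw [QuotientGroup.eq_one_iff, Subgroup.mem_subgroupOf] at h1
  exact h1

end Pool.Agent.Lib.MP_afab79_al.Wr
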