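import Mathlib
import Pool.Agent.Lib.MP_afab79_al.Wr.Sec
import Pool.Agent.Lib.MP_afab79_al.Wr.Fin

/-!
# Descending a series
-/

namespace Pool.Agent.Lib.MP_afab79_al.Wr

variable {G : Type*} [Group G]

/-- The section `K / (K ∩ N)` involves the group `W`: some subgroup `J ≤ K` maps onto `W` by a
homomorphism which is trivial on `J ∩ N`. -/
def Involves (K N : Subgroup G) (W : Type) [Group W] : Prop :=
  ∃ (J : Subgroup G) (f : J →* W), J ≤ K ∧ (∀ j : J, (j : G) ∈ N → f j = 1) ∧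
    Function.Surjective f

/-- One step of the descent, for a factor not involving the wreath product. -/
theorem step_wreath {p : ℕ} [hp : Fact p.Prime] (y : G × G) [Finite (ev y).range] (s n : ℕ)
    (hs : Nat.card (ev y).range ^ 3 = p ^ s) (M L K N : Subgroup G) [Finite L]
    (hL : IsPGroup p L) (hyL : (ev y).range ≤ L) (hKL : K ≤ L) (hKM : K ≤ M) (hNK : N ≤ K)
    (hKn : Nml L K) (hNn : Nml L N)
    (hr : ∀ u ∈ M, ∀ v ∈ M, ∀ w, ev y w = 1 → ev (u * y.1, v * y.2) w = 1)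
    (hw : ¬ Involves K N (CW p n)) (c : G) (hc : c ∈ K) : c ^ p ^ (n + s + s) ∈ N := by
  let N' : Subgroup L := N.subgroupOf L
  have hN'n : N'.Normal := ⟨fun a ha g => by
    rw [Subgroup.mem_subgroupOf] at ha ⊢
    exact hNn g g.2 a ha⟩
  let K' : Subgroup L := K.subgroupOf L
  have hK'n : K'.Normal := ⟨fun a ha g => by
    rw [Subgroup.mem_subgroupOf] at ha ⊢
    exact hKn g g.2 a ha⟩
  let q : L →* L ⧸ N' := QuotientGroup.mk' N'
  let P : Subgroup (L ⧸ N') := K'.map q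
  have hPn : P.Normal := hK'n.map q (QuotientGroup.mk'_surjective N')
  have hP : ∀ x : L, q x ∈ P → (x : G) ∈ K := by
    rintro x ⟨k, hk, hkx⟩
    have h1 : k⁻¹ * x ∈ N' := by
      rw [← QuotientGroup.eq]; exact hkx
    have h2 : (x : G) = k * ((k⁻¹ * x : L) : G) := by push_cast; group
    rw [h2]
    exact K.mul_mem hk (hNK h1)
  have hN' : ∀ x : L, q x = 1 → (x : G) ∈ N := by
    intro x hx
    exact (QuotientGroup.eq_one_iff x).1 hx
  have hN'' : ∀ x : L, (x : G) ∈ N → q x = 1 := by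
    intro x hx
    exact (QuotientGroup.eq_one_iff x).2 hx
  have key := exponent_of_no_wreath (hL.to_quotient N') P s n ?_ ?_ (q ⟨c, hKL hc⟩)
    ⟨⟨c, hKL hc⟩, hc, rfl⟩
  · rw [← map_pow] at key
    exact hN' _ key
  · intro A hAn hAP hAc a ha
    obtain ⟨x, rfl⟩ := QuotientGroup.mk'_surjective N' a
    let B : Subgroup G := (A.comap q).map L.subtype
    have hB : ∀ z : G, z ∈ B ↔ ∃ h : z ∈ L, q ⟨z, h⟩ ∈ A := by
      intro z
      constructor
      · rintro ⟨z, hz, rfl⟩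
        exact ⟨z.2, hz⟩
      · rintro ⟨h, hz⟩
        exact ⟨⟨z, h⟩, hz, rfl⟩
    have hBK : B ≤ K := by
      intro z hz
      obtain ⟨h, hz⟩ := (hB z).1 hz
      exact hP _ (hAP hz)
    have h1 := abelian_section y N B (fun x hx => hNn x (hyL hx)) (by
      intro z hz b hb
      obtain ⟨h, hb⟩ := (hB b).1 hb
      refine (hB _).2 ⟨L.mul_mem (L.mul_mem (hyL hz) h) (L.inv_mem (hyL hz)), ?_⟩
      exact hAn.conj_mem _ hb (q ⟨z, hyL hz⟩)) (fun u hu v hv => hr u (hKM (hBK hu)) v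
        (hKM (hBK hv))) (by
      intro a ha b hb
      obtain ⟨h1, ha⟩ := (hB a).1 ha
      obtain ⟨h2, hb⟩ := (hB b).1 hb
      apply hN' (⟨a, h1⟩ * ⟨b, h2⟩ * ⟨a, h1⟩⁻¹ * ⟨b, h2⟩⁻¹)
      rw [map_mul, map_mul, map_mul, map_inv, map_inv, hAc _ ha _ hb]
      group) x ((hB _).2 ⟨x.2, ha⟩)
    rw [hs] at h1
    change q x ^ p ^ s = 1
    rw [← map_pow]
    exact hN'' _ h1
  · rintro ⟨J, f, hJ, hf⟩
    apply hw
    let J' : Subgroup G := (J.comap q).map L.subtype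
    have hJ' : ∀ z : G, z ∈ J' ↔ ∃ h : z ∈ L, q ⟨z, h⟩ ∈ J := by
      intro z
      constructor
      · rintro ⟨z, hz, rfl⟩
        exact ⟨z.2, hz⟩
      · rintro ⟨h, hz⟩
        exact ⟨⟨z, h⟩, hz, rfl⟩
    let f' : J' →* CW p n :=
      { toFun := fun z => f ⟨q ⟨z, ((hJ' z).1 z.2).1⟩, ((hJ' z).1 z.2).2⟩
        map_one' := by
          rw [← map_one f]
          congr 1
        map_mul' := by
          intro a b
          rw [← map_mul f]
          congr 1 }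
    refine ⟨J', f', ?_, ?_, ?_⟩
    · intro z hz
      obtain ⟨h, hz⟩ := (hJ' z).1 hz
      exact hP _ (hJ hz)
    · intro j hj
      change f _ = 1
      rw [← map_one f]
      congr 1
      exact Subtype.ext (hN'' _ hj)
    · intro w
      obtain ⟨⟨j, hj⟩, rfl⟩ := hf w
      obtain ⟨x, rfl⟩ := QuotientGroup.mk'_surjective N' j
      exact ⟨⟨x, (hJ' _).2 ⟨x.2, hj⟩⟩, rfl⟩

/-- The descent along a series. -/
theorem descend (y : G × G) [Finite (ev y).range] (M L : Subgroup G) [hM : M.Normal]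
    (hyL : (ev y).range ≤ L)
    (hr : ∀ u ∈ M, ∀ v ∈ M, ∀ w, ev y w = 1 → ev (u * y.1, v * y.2) w = 1)
    (l E : ℕ) (hE : Nat.card (ev y).range ^ 3 ∣ E) (S : ℕ → Subgroup G)
    (hS0 : S 0 = L) (hSl : S l = ⊥) (hSn : ∀ i ≤ l, Nml L (S i))
    (hS : ∀ i < l, (∀ a ∈ S i, ∀ b ∈ S i, a * b * a⁻¹ * b⁻¹ ∈ S (i + 1)) ∨
      ∀ c ∈ S i ⊓ M, c ^ E ∈ S (i + 1) ⊓ M) (b : G) (hbL : b ∈ L) (hbM : b ∈ M) :
    b ^ E ^ l = 1 := by
  have key : ∀ i ≤ l, b ^ E ^ i ∈ S i ⊓ M := by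
    intro i
    induction i with
    | zero => intro _; rw [pow_zero, pow_one, hS0]; exact ⟨hbL, hbM⟩
    | succ i ih =>
      intro hi
      have h1 := ih (by omega)
      rw [pow_succ, pow_mul]
      rcases hS i (by omega) with h | h
      · obtain ⟨m, hm⟩ := hE
        have h2 := abelian_section y (S (i + 1) ⊓ M) (S i ⊓ M) (fun x hx a ha =>
          ⟨hSn (i + 1) hi x (hyL hx) a ha.1, hM.conj_mem a ha.2 x⟩) (fun x hx a ha =>
          ⟨hSn i (by omega) x (hyL hx) a ha.1, hM.conj_mem a ha.2 x⟩)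
          (fun u hu v hv => hr u hu.2 v hv.2) (fun a ha b hb => ⟨h a ha.1 b hb.1,
            M.mul_mem (M.mul_mem (M.mul_mem ha.2 hb.2) (M.inv_mem ha.2)) (M.inv_mem hb.2)⟩) _ h1
        have h3 : (b ^ E ^ i) ^ E = ((b ^ E ^ i) ^ (Nat.card (ev y).range ^ 3)) ^ m := by
          rw [← pow_mul (b ^ E ^ i), ← hm]
        rw [h3]
        exact Subgroup.pow_mem _ h2 m
      · exact h _ h1
  have h : b ^ E ^ l ∈ S l := (key l le_rfl).1
  rw [hSl, Subgroup.mem_bot] at h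
  exact h

end Pool.Agent.Lib.MP_afab79_al.Wr
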