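import Mathlib
import Pool.Agent.Lib.MP_afab79_al.Wr.Series

/-!
# The two criteria
-/

namespace Pool.Agent.Lib.MP_afab79_al.Wr

section Soluble

theorem derived_shift {L : Type*} [Group L] (l : ℕ) :
    (derivedSeries (commutator L) l).map (commutator L).subtype ≤ derivedSeries L (l + 1) := by
  induction l with
  | zero =>
    rw [derivedSeries_zero, derivedSeries_one]
    rintro _ ⟨x, _, rfl⟩
    exact x.2
  | succ l ih =>
    rw [derivedSeries_succ, derivedSeries_succ, Subgroup.map_commutator]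
    exact Subgroup.commutator_mono ih ih

/-- A finitely generated torsion group of finite derived length is finite. -/
theorem finite_of_derived (l : ℕ) : ∀ (L : Type*) [Group L], Group.FG L →
    (∀ g : L, ∃ n : ℕ, 0 < n ∧ g ^ n = 1) → derivedSeries L l = ⊥ → Finite L := by
  induction l with
  | zero =>
    intro L _ _ _ h
    rw [derivedSeries_zero] at h
    have : Subsingleton L := ⟨fun a b => by
      have ha : a ∈ (⊤ : Subgroup L) := Subgroup.mem_top a
      have hb : b ∈ (⊤ : Subgroup L) := Subgroup.mem_top b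
      rw [h, Subgroup.mem_bot] at ha hb
      rw [ha, hb]⟩
    infer_instance
  | succ l ih =>
    intro L _ hfg htor h
    have h1 : Finite (Abelianization L) := by
      have : Group.FG (Abelianization L) :=
        QuotientGroup.fg _
      apply CommGroup.finite_of_fg_isMulTorsion
      intro g
      induction g using QuotientGroup.induction_on with
      | H g =>
        obtain ⟨n, hn, hg⟩ := htor g
        change IsOfFinOrder (Abelianization.of g)
        exact Abelianization.of.isOfFinOrder (isOfFinOrder_iff_pow_eq_one.2 ⟨n, hn, hg⟩)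
    have h2 : (commutator L).FiniteIndex := by
      have : Finite (L ⧸ commutator L) := h1
      exact Subgroup.finiteIndex_of_finite_quotient
    have h3 : Finite (commutator L) := by
      apply ih (commutator L) inferInstance
      · intro g
        obtain ⟨n, hn, hg⟩ := htor g
        exact ⟨n, hn, Subtype.ext (by simpa using hg)⟩
      · rw [eq_bot_iff]
        intro x hx
        have h4 := derived_shift l ⟨x, hx, rfl⟩
        rw [h] at h4
        exact Subgroup.mem_bot.2 (Subtype.ext (Subgroup.mem_bot.1 h4))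
    apply Nat.finite_of_card_ne_zero
    rw [← Subgroup.card_mul_index (commutator L)]
    exact Nat.mul_ne_zero Nat.card_pos.ne' h2.index_ne_zero

end Soluble

section Main

variable {G : Type*} [Group G] [TopologicalSpace G] [IsTopologicalGroup G] [CompactSpace G]
  [T2Space G] [TotallyDisconnectedSpace G]

omit [TopologicalSpace G] [IsTopologicalGroup G] [CompactSpace G] [T2Space G]
  [TotallyDisconnectedSpace G] in
theorem closure_pair_le (x y z : G) : Subgroup.closure {y, z} ≤ Subgroup.closure {x, y, z} :=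
  Subgroup.closure_mono (Set.subset_insert _ _)

omit [T2Space G] [TotallyDisconnectedSpace G] in
/-- From an open normal subgroup of finite exponent to the group. -/
theorem exponent_of_open (M : OpenNormalSubgroup G) (e : ℕ) (he : 0 < e)
    (h : ∀ b ∈ M.toSubgroup, b ^ e = 1) : ∃ n : ℕ, 0 < n ∧ ∀ g : G, g ^ n = 1 := by
  have h1 : Finite (G ⧸ M.toSubgroup) := Subgroup.quotient_finite_of_isOpen _ M.isOpen'
  have h2 : M.toSubgroup.index ≠ 0 := by
    have := Subgroup.finiteIndex_of_finite_quotient (H := M.toSubgroup)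
    exact this.index_ne_zero
  refine ⟨M.toSubgroup.index * e, Nat.mul_pos (Nat.pos_of_ne_zero h2) he, fun g => ?_⟩
  rw [pow_mul]
  exact h _ (Subgroup.pow_index_mem _ g)

/-- **Soluble criterion.** It suffices that the subgroups generated by two elements of an open set
and one element of another open set have bounded derived length. -/
theorem soluble_open (htor : ∀ g : G, ∃ n : ℕ, 0 < n ∧ g ^ n = 1) (l : ℕ) (U₁ U₂ : Set G)
    (hU₁ : IsOpen U₁) (hU₂ : IsOpen U₂) (hne₁ : U₁.Nonempty) (hne₂ : U₂.Nonempty)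
    (hl : ∀ x ∈ U₁, ∀ y ∈ U₁, ∀ z ∈ U₂, derivedSeries (Subgroup.closure {x, y, z}) l = ⊥) :
    ∃ n : ℕ, 0 < n ∧ ∀ g : G, g ^ n = 1 := by
  have hfin : ∀ x ∈ U₁, ∀ y ∈ U₁, ∀ z ∈ U₂, Finite (Subgroup.closure {x, y, z}) := by
    intro x hx y hy z hz
    apply finite_of_derived l _ inferInstance _ (hl x hx y hy z hz)
    intro g
    obtain ⟨n, hn, hg⟩ := htor g
    exact ⟨n, hn, Subtype.ext (by simpa using hg)⟩
  have hfin2 : ∀ y ∈ U₁, ∀ z ∈ U₂, Finite (Subgroup.closure {y, z}) := by
    intro y hy z hz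
    have := hfin y hy y hy z hz
    exact Set.Finite.subset (Set.toFinite (Subgroup.closure {y, y, z} : Set G))
      (closure_pair_le y y z)
  obtain ⟨y₀, hy₀⟩ := hne₁
  obtain ⟨z₀, hz₀⟩ := hne₂
  obtain ⟨y, hy, M, _, hMO, hr⟩ := exists_rigid_in (U₁ ×ˢ U₂) (hU₁.prod hU₂) ⟨(y₀, z₀), hy₀, hz₀⟩
    (by
      rintro y ⟨h1, h2⟩
      have h3 : Finite ((ev y).range) := by rw [ev_range]; exact hfin2 _ h1 _ h2
      exact Set.toFinite ((ev y).range : Set G))
  have hH : Finite (ev y).range := by rw [ev_range]; exact hfin2 _ hy.1 _ hy.2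
  apply exponent_of_open M ((Nat.card (ev y).range ^ 3) ^ l)
    (Nat.pow_pos (Nat.pow_pos Nat.card_pos))
  intro b hb
  have hby : b * y.1 ∈ U₁ := (hMO b hb 1 M.toSubgroup.one_mem).1
  have hyL : (ev y).range ≤ Subgroup.closure {b * y.1, y.1, y.2} := by
    rw [ev_range]; exact closure_pair_le _ _ _
  have hbL : b ∈ Subgroup.closure {b * y.1, y.1, y.2} := by
    have h1 : b * y.1 ∈ Subgroup.closure {b * y.1, y.1, y.2} :=
      Subgroup.subset_closure (Set.mem_insert _ _)
    have h2 : y.1 ∈ Subgroup.closure {b * y.1, y.1, y.2} := hyL (fst_mem y)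
    have h3 := Subgroup.mul_mem _ h1 (Subgroup.inv_mem _ h2)
    rwa [mul_inv_cancel_right] at h3
  have hMn : M.toSubgroup.Normal := M.isNormal'
  let L := Subgroup.closure {b * y.1, y.1, y.2}
  refine descend y M.toSubgroup L hyL hr l _ dvd_rfl
    (fun i => (derivedSeries L i).map L.subtype) ?_ ?_ ?_ ?_ b hbL hb
  · simp only [derivedSeries_zero]
    rw [← MonoidHom.range_eq_map, Subgroup.range_subtype]
  · rw [show derivedSeries L l = ⊥ from hl _ hby _ hy.1 _ hy.2, Subgroup.map_bot]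
  · rintro i _ x hx _ ⟨a, ha, rfl⟩
    exact ⟨⟨x, hx⟩ * a * ⟨x, hx⟩⁻¹, (derivedSeries_normal L i).conj_mem a ha ⟨x, hx⟩, rfl⟩
  · intro i _
    left
    rintro _ ⟨a, ha, rfl⟩ _ ⟨c, hc, rfl⟩
    refine ⟨a * c * a⁻¹ * c⁻¹, ?_, rfl⟩
    exact Subgroup.commutator_mem_commutator ha hc

/-- A series of length `l` from `L` to `1` of subgroups normalised by `L`, whose factors are abelian
or do not involve the wreath product `C_p ≀ C_{p ^ n}`. -/
def GoodSeries (p l n : ℕ) (L : Subgroup G) : Prop :=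
  ∃ S : ℕ → Subgroup G, S 0 = L ∧ S l = ⊥ ∧ (∀ i < l, S (i + 1) ≤ S i) ∧
    (∀ i ≤ l, ∀ x ∈ L, ∀ a ∈ S i, x * a * x⁻¹ ∈ S i) ∧
    ∀ i < l, (∀ a ∈ S i, ∀ b ∈ S i, a * b * a⁻¹ * b⁻¹ ∈ S (i + 1)) ∨
      ¬ Involves (S i) (S (i + 1)) (CW p n)

/-- **Wreath product criterion**, the hard direction. -/
theorem wreath_open {p : ℕ} [hp : Fact p.Prime] (hG : ∀ g : G, ∃ k : ℕ, g ^ p ^ k = 1)
    (U₁ U₂ : Set G) (hU₁ : IsOpen U₁) (hU₂ : IsOpen U₂) (hne₁ : U₁.Nonempty)
    (hne₂ : U₂.Nonempty)
    (hfin : ∀ x ∈ U₁, ∀ y ∈ U₁, ∀ z ∈ U₂, Finite (Subgroup.closure {x, y, z})) (l n : ℕ)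
    (hl : ∀ x ∈ U₁, ∀ y ∈ U₁, ∀ z ∈ U₂, GoodSeries p l n (Subgroup.closure {x, y, z})) :
    ∃ n : ℕ, 0 < n ∧ ∀ g : G, g ^ n = 1 := by
  have hfin2 : ∀ y ∈ U₁, ∀ z ∈ U₂, Finite (Subgroup.closure {y, z}) := by
    intro y hy z hz
    have := hfin y hy y hy z hz
    exact Set.Finite.subset (Set.toFinite (Subgroup.closure {y, y, z} : Set G))
      (closure_pair_le y y z)
  obtain ⟨y₀, hy₀⟩ := hne₁
  obtain ⟨z₀, hz₀⟩ := hne₂
  obtain ⟨y, hy, M, _, hMO, hr⟩ := exists_rigid_in (U₁ ×ˢ U₂) (hU₁.prod hU₂) ⟨(y₀, z₀), hy₀, hz₀⟩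
    (by
      rintro y ⟨h1, h2⟩
      have h3 : Finite ((ev y).range) := by rw [ev_range]; exact hfin2 _ h1 _ h2
      exact Set.toFinite ((ev y).range : Set G))
  have hH : Finite (ev y).range := by rw [ev_range]; exact hfin2 _ hy.1 _ hy.2
  have hpG : IsPGroup p G := hG
  obtain ⟨s₀, hs₀⟩ := IsPGroup.iff_card.1 (hpG.to_subgroup (ev y).range)
  have hs : Nat.card (ev y).range ^ 3 = p ^ (s₀ * 3) := by rw [hs₀, pow_mul]
  apply exponent_of_open M ((p ^ (n + s₀ * 3 + s₀ * 3)) ^ l)
    (Nat.pow_pos (Nat.pow_pos hp.out.pos))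
  intro b hb
  have hby : b * y.1 ∈ U₁ := (hMO b hb 1 M.toSubgroup.one_mem).1
  have hyL : (ev y).range ≤ Subgroup.closure {b * y.1, y.1, y.2} := by
    rw [ev_range]; exact closure_pair_le _ _ _
  have hbL : b ∈ Subgroup.closure {b * y.1, y.1, y.2} := by
    have h1 : b * y.1 ∈ Subgroup.closure {b * y.1, y.1, y.2} :=
      Subgroup.subset_closure (Set.mem_insert _ _)
    have h2 : y.1 ∈ Subgroup.closure {b * y.1, y.1, y.2} := hyL (fst_mem y)
    have h3 := Subgroup.mul_mem _ h1 (Subgroup.inv_mem _ h2)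
    rwa [mul_inv_cancel_right] at h3
  have hMn : M.toSubgroup.Normal := M.isNormal'
  obtain ⟨S, hS0, hSl, hSle, hSn, hS⟩ := hl _ hby _ hy.1 _ hy.2
  have hSL : ∀ i ≤ l, S i ≤ Subgroup.closure {b * y.1, y.1, y.2} := by
    intro i
    induction i with
    | zero => intro _; rw [hS0]
    | succ i ih => exact fun hi => (hSle i (by omega)).trans (ih (by omega))
  refine descend y M.toSubgroup _ hyL hr l _ ?_ S hS0 hSl hSn ?_ b hbL hb
  · rw [hs]
    exact pow_dvd_pow p (by omega)
  · intro i hi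
    rcases hS i hi with h | h
    · exact Or.inl h
    · right
      intro c hc
      have := hfin _ hby _ hy.1 _ hy.2
      exact step_wreath y (s₀ * 3) n hs M.toSubgroup (Subgroup.closure {b * y.1, y.1, y.2})
        (S i ⊓ M.toSubgroup) (S (i + 1) ⊓ M.toSubgroup) (hpG.to_subgroup _) hyL
        (inf_le_left.trans (hSL i (by omega))) inf_le_right
        (inf_le_inf_right _ (hSle i hi))
        (fun x hx a ha => ⟨hSn i (by omega) x hx a ha.1, hMn.conj_mem a ha.2 x⟩)
        (fun x hx a ha => ⟨hSn (i + 1) (by omega) x hx a ha.1, hMn.conj_mem a ha.2 x⟩) hr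
        (by
          rintro ⟨J, f, hJ, hf, hfs⟩
          exact h ⟨J, f, hJ.trans inf_le_left,
            fun j hj => hf j ⟨hj, (hJ j.2).2⟩, hfs⟩) c hc

/-- **Wreath product criterion**, the easy direction. -/
theorem good_of_exponent {G : Type*} [Group G] {p : ℕ} [hp : Fact p.Prime] (N : ℕ) (hN : 0 < N)
    (h : ∀ g : G, g ^ N = 1) (L : Subgroup G) : GoodSeries p 1 N L := by
  refine ⟨fun i => if i = 0 then L else ⊥, by simp, by simp, ?_, ?_, ?_⟩
  · intro i hi
    simp
  · intro i _ x hx a ha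
    by_cases h0 : i = 0
    · subst h0
      simp only [if_true] at ha ⊢
      exact L.mul_mem (L.mul_mem hx ha) (L.inv_mem hx)
    · simp only [h0, if_false, Subgroup.mem_bot] at ha ⊢
      rw [ha]; group
  · intro i _
    right
    rintro ⟨J, f, _, _, hf⟩
    obtain ⟨j, hj⟩ := hf (topElt p N)
    have h1 : (topElt p N) ^ N = 1 := by
      rw [← hj, ← map_pow]
      have : j ^ N = 1 := Subtype.ext (by simpa using h j)
      rw [this, map_one]
    rw [topElt_pow] at h1
    have h2 : ((N : ℕ) : ZMod (p ^ N)) = 0 := by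
      have := congrArg RegularWreathProduct.right h1
      exact this
    rw [ZMod.natCast_eq_zero_iff] at h2
    have h3 := Nat.le_of_dvd hN h2
    have h4 : N < p ^ N := Nat.lt_pow_self hp.out.one_lt
    omega

end Main

end Pool.Agent.Lib.MP_afab79_al.Wr
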